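import Pool.Agent.H92.SF.LUT
import Pool.Agent.H92.SF.PQV

/-!
# Board `sfu_modules`, row CTP: the coefficient of the top power of `ζ`
-/

set_option autoImplicit false

namespace Pool.Agent.H33.SFU

open MvPolynomial
open Pool.Agent.H84.SM (dp cr dt)
open Pool.Agent.H3.SF Pool.Agent.H92.SF

theorem ctp_iter {L : Type} [CommRing L] (m : ℕ) (x g : Fin 3 → L) (G : L)
    (H : Fin 3 → Fin 3 → L) (s : L) (n : ℕ) : ∀ V : Q2 L,
    Polynomial.derivative^[n] (Psi m x g G H s V) =
      cc (m * G) ^ n * Psi m x g G H s (Polynomial.derivative^[n] V) := by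
  induction n with
  | zero => intro V; simp
  | succ n ih =>
    intro V
    have h0 : Polynomial.derivative (cc (m * G) ^ n : C3 L) = 0 := by
      rw [← map_pow, cc, RingHom.comp_apply, Polynomial.derivative_C]
    rw [Function.iterate_succ_apply', ih, Polynomial.derivative_mul, h0, zero_mul, zero_add,
      pf_PDW, Function.iterate_succ_apply', pow_succ, mul_assoc]

theorem ctp_coeff {L : Type} [Field L] [CharZero L] (m : ℕ) (x g : Fin 3 → L) (G : L)
    (H : Fin 3 → Fin 3 → L) (s : L) (hmG : (m : L) * G ≠ 0)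
    (hinj : Function.Injective (Psi m x g G H s)) (P : Q2 L) (hP : P ≠ 0) :
    (Psi m x g G H s P).coeff P.natDegree ≠ 0 := by
  intro h0
  have h1 : Polynomial.derivative^[P.natDegree] P ≠ 0 := by
    intro h
    have h2 := Polynomial.coeff_iterate_derivative (p := P) (k := P.natDegree) 0
    rw [h, Polynomial.coeff_zero, zero_add] at h2
    rcases smul_eq_zero.1 h2.symm with h3 | h3
    · rw [Nat.descFactorial_self] at h3
      exact Nat.factorial_ne_zero _ h3
    · exact hP (Polynomial.leadingCoeff_eq_zero.1 h3)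
  have h2 : Polynomial.derivative^[P.natDegree] (Psi m x g G H s P) ≠ 0 := by
    rw [ctp_iter]
    refine mul_ne_zero (pow_ne_zero _ ?_) ?_
    · rw [cc, RingHom.comp_apply]
      simpa using hmG
    · rw [Ne, map_eq_zero_iff _ hinj]
      exact h1
  have h3 : Polynomial.derivative (Polynomial.derivative^[P.natDegree] (Psi m x g G H s P)) = 0 := by
    rw [← Function.iterate_succ_apply' Polynomial.derivative, ctp_iter,
      Polynomial.iterate_derivative_eq_zero (Nat.lt_succ_self _), map_zero, mul_zero]
  have h4 := Polynomial.derivative_eq_zero.1 h3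
  have h5 := Polynomial.eq_C_of_natDegree_eq_zero h4
  rw [Polynomial.coeff_iterate_derivative, zero_add, h0, smul_zero, map_zero] at h5
  exact h2 h5

theorem pf_CTP (hDAT : T_DAT) : T_CTP := by
  intro k F _ _ _ _ _ u dd δ j0 c0 J m G hBs P hP
  obtain ⟨hD, hu, hJ, hmG, -⟩ := hDAT k F u dd δ j0 c0 J m G hBs
  have : CharZero F := charZero_of_injective_algebraMap (algebraMap k F).injective
  have hinj : Function.Injective (Ps u dd J m G) := by
    have h := pf_LIN F m u (grd dd G) G (hes dd G) (aeval u J) (u 0)⁻¹ ((m : F) * G)⁻¹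
      (aeval u J)⁻¹ hD (inv_mul_cancel₀ (hu 0)) (inv_mul_cancel₀ hmG) (inv_mul_cancel₀ hJ)
    intro a b hab
    rw [← h a, ← h b]
    exact congrArg _ hab
  have h1 := ctp_coeff m u (grd dd G) G (hes dd G) (aeval u J) hmG hinj P hP
  exact MvPolynomial.ne_zero_iff.1 h1

end Pool.Agent.H33.SFU
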